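import Mathlib

set_option autoImplicit false

/-!
# Mirrored pairs of optimal entanglement witnesses: definitions

Operators on `ℂ^d ⊗ ℂ^d` are complex matrices indexed by `Fin d × Fin d`.
-/

namespace Pool.Agent.Helper90.Mirror

open Matrix
open scoped Kronecker ComplexOrder

/-- Operators on `H = ℂ^d ⊗ ℂ^d`, as matrices in the product basis. -/
abbrev Op (d : ℕ) := Matrix (Fin d × Fin d) (Fin d × Fin d) ℂ

/-- A state: a positive semidefinite operator of trace one. -/
def IsState {n : Type} [Fintype n] (ρ : Matrix n n ℂ) : Prop :=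
  ρ.PosSemidef ∧ ρ.trace = 1

/-- Separable operators: convex combinations of product states `α ⊗ β`. -/
def IsSeparable {d : ℕ} (σ : Op d) : Prop :=
  σ ∈ convexHull ℝ {x : Op d | ∃ α β : Matrix (Fin d) (Fin d) ℂ,
    IsState α ∧ IsState β ∧ x = α ⊗ₖ β}

/-- Entanglement witnesses on `ℂ^d ⊗ ℂ^d`. (For Hermitian `W` and a state `ρ` the trace of `W ρ`
is real; we take its real part.) -/
def IsEW {d : ℕ} (W : Op d) : Prop :=
  W.IsHermitian ∧ (∀ σ : Op d, IsSeparable σ → 0 ≤ (W * σ).trace.re) ∧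
    ∃ ρ : Op d, IsState ρ ∧ (W * ρ).trace.re < 0

/-- Optimal entanglement witnesses: no nonzero positive semidefinite operator can be subtracted. -/
def IsOptimalEW {d : ℕ} (W : Op d) : Prop :=
  IsEW W ∧ ¬ ∃ (ε : ℝ) (P : Op d), 0 < ε ∧ P.PosSemidef ∧ P ≠ 0 ∧ IsEW (W - (ε : ℂ) • P)

/-- A mirrored pair of optimal entanglement witnesses: `W + M = u I ⊗ I` with `u` real. -/
def IsMirroredOptimalPair {d : ℕ} (W M : Op d) : Prop :=
  IsOptimalEW W ∧ IsOptimalEW M ∧ ∃ u : ℝ, W + M = (u : ℂ) • (1 : Op d)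

/-- Partial transpose on the second tensor factor. -/
def partialTranspose {d : ℕ} (Q : Op d) : Op d := fun x y => Q (x.1, y.2) (y.1, x.2)

/-- Decomposable operators: `P + Q^Γ` with `P, Q` positive semidefinite. -/
def IsDecomposable {d : ℕ} (W : Op d) : Prop :=
  ∃ P Q : Op d, P.PosSemidef ∧ Q.PosSemidef ∧ W = P + partialTranspose Q

end Pool.Agent.Helper90.Mirror
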