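import Mathlib

set_option autoImplicit false

/-! # The real inequality behind the witnesses -/

namespace Pool.Agent.Helper90.Mirror

lemma cubic (x y z : ℝ) (hx : 0 ≤ x) (hy : 0 ≤ y) (hz : 0 ≤ z) :
    0 ≤ 32*(x^3+y^3+z^3) + 496*(x^2*y+y^2*z+z^2*x) - 254*(x*y^2+y*z^2+z*x^2) + 267*(x*y*z) := by
  nlinarith [mul_nonneg hx (sq_nonneg (4*x-y)), mul_nonneg hy (sq_nonneg (4*x-y)),
    mul_nonneg hy (sq_nonneg (4*y-z)), mul_nonneg hz (sq_nonneg (4*y-z)),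
    mul_nonneg hz (sq_nonneg (4*z-x)), mul_nonneg hx (sq_nonneg (4*z-x)),
    mul_nonneg (mul_nonneg hx hy) hz,
    mul_nonneg hx hy, mul_nonneg hy hz, mul_nonneg hz hx,
    mul_nonneg hx (sq_nonneg (4*x-y+z)), mul_nonneg hy (sq_nonneg (4*y-z+x)),
    mul_nonneg hz (sq_nonneg (4*z-x+y)),
    mul_nonneg hx (sq_nonneg (4*x-y-z)), mul_nonneg hy (sq_nonneg (4*y-z-x)),
    mul_nonneg hz (sq_nonneg (4*z-x-y))]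

/-- Cauchy-Schwarz for three terms. -/
lemma cs3 {d0 d1 d2 a0 a1 a2 b0 b1 b2 : ℝ} (ha0 : 0 ≤ a0) (ha1 : 0 ≤ a1) (ha2 : 0 ≤ a2)
    (hb0 : 0 ≤ b0) (hb1 : 0 ≤ b1) (hb2 : 0 ≤ b2) (h0 : d0^2 = a0*b0) (h1 : d1^2 = a1*b1)
    (h2 : d2^2 = a2*b2) : (d0+d1+d2)^2 ≤ (a0+a1+a2)*(b0+b1+b2) := by
  have := Finset.sum_sq_le_sum_mul_sum_of_sq_le_mul (Finset.univ : Finset (Fin 3))
    (r := ![d0,d1,d2]) (f := ![a0,a1,a2]) (g := ![b0,b1,b2])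
    (by intro i _; fin_cases i <;> simp [ha0,ha1,ha2])
    (by intro i _; fin_cases i <;> simp [hb0,hb1,hb2])
    (by intro i _; fin_cases i <;> simp [h0,h1,h2])
  simpa [Fin.sum_univ_three] using this

/-- The main inequality, for positive `q`. -/
lemma ineq_pos {p0 p1 p2 q0 q1 q2 u0 u1 u2 v0 v1 v2 : ℝ}
    (hp0 : 0 ≤ p0) (hp1 : 0 ≤ p1) (hp2 : 0 ≤ p2) (hq0 : 0 < q0) (hq1 : 0 < q1) (hq2 : 0 < q2)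
    (h0 : u0^2+v0^2 ≤ p0*q0) (h1 : u1^2+v1^2 ≤ p1*q1) (h2 : u2^2+v2^2 ≤ p2*q2) :
    50*((u0*v1-v0*u1)+(u1*v2-v1*u2)+(u2*v0-v2*u0)) ≤
      p0*(17*q0+2*q1+32*q2) + p1*(32*q0+17*q1+2*q2) + p2*(2*q0+32*q1+17*q2) := by
  obtain ⟨L0, hL0⟩ : ∃ L0, L0 = 17*q0+2*q1+32*q2 := ⟨_, rfl⟩
  obtain ⟨L1, hL1⟩ : ∃ L1, L1 = 32*q0+17*q1+2*q2 := ⟨_, rfl⟩
  obtain ⟨L2, hL2⟩ : ∃ L2, L2 = 2*q0+32*q1+17*q2 := ⟨_, rfl⟩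
  rw [← hL0, ← hL1, ← hL2]
  have hL0p : 0 < L0 := by rw [hL0]; positivity
  have hL1p : 0 < L1 := by rw [hL1]; positivity
  have hL2p : 0 < L2 := by rw [hL2]; positivity
  -- the cubic inequality
  have hcub : 625*(L0*q1*q2+L1*q2*q0+L2*q0*q1) ≤ L0*L1*L2 := by
    have := cubic q0 q1 q2 hq0.le hq1.le hq2.le
    rw [hL0, hL1, hL2]
    nlinarith [this]
  have hA : 625*(q0*q1/(L0*L1)+q1*q2/(L1*L2)+q2*q0/(L2*L0)) ≤ 1 := by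
    have e : q0*q1/(L0*L1)+q1*q2/(L1*L2)+q2*q0/(L2*L0) =
        (L0*q1*q2+L1*q2*q0+L2*q0*q1)/(L0*L1*L2) := by
      field_simp
      ring
    rw [e, ← mul_div_assoc, div_le_one (by positivity)]
    exact hcub
  -- weights
  have hS : L0/q0*(u0^2+v0^2)+L1/q1*(u1^2+v1^2)+L2/q2*(u2^2+v2^2) ≤ p0*L0+p1*L1+p2*L2 := by
    have e0 : L0/q0*(u0^2+v0^2) ≤ p0*L0 := by
      rw [div_mul_eq_mul_div, div_le_iff₀ hq0]; nlinarith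
    have e1 : L1/q1*(u1^2+v1^2) ≤ p1*L1 := by
      rw [div_mul_eq_mul_div, div_le_iff₀ hq1]; nlinarith
    have e2 : L2/q2*(u2^2+v2^2) ≤ p2*L2 := by
      rw [div_mul_eq_mul_div, div_le_iff₀ hq2]; nlinarith
    linarith
  obtain ⟨a, ha⟩ : ∃ a, a = L0/q0 := ⟨_, rfl⟩
  obtain ⟨b, hb⟩ : ∃ b, b = L1/q1 := ⟨_, rfl⟩
  obtain ⟨c, hc⟩ : ∃ c, c = L2/q2 := ⟨_, rfl⟩
  have hap : 0 < a := by rw [ha]; positivity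
  have hbp : 0 < b := by rw [hb]; positivity
  have hcp : 0 < c := by rw [hc]; positivity
  have hL : 4*(a*b*(u0*v1-v0*u1)^2+b*c*(u1*v2-v1*u2)^2+c*a*(u2*v0-v2*u0)^2) ≤
      (a*(u0^2+v0^2)+b*(u1^2+v1^2)+c*(u2^2+v2^2))^2 := by
    have e : (a*(u0^2+v0^2)+b*(u1^2+v1^2)+c*(u2^2+v2^2))^2 -
        4*(a*b*(u0*v1-v0*u1)^2+b*c*(u1*v2-v1*u2)^2+c*a*(u2*v0-v2*u0)^2) =
        4*(a*u0*v0+b*u1*v1+c*u2*v2)^2 +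
        ((a*u0^2+b*u1^2+c*u2^2)-(a*v0^2+b*v1^2+c*v2^2))^2 := by ring
    have e2 : 0 ≤ 4*(a*u0*v0+b*u1*v1+c*u2*v2)^2 +
        ((a*u0^2+b*u1^2+c*u2^2)-(a*v0^2+b*v1^2+c*v2^2))^2 := by positivity
    linarith
  rw [← ha, ← hb, ← hc] at hS
  have hD : ((u0*v1-v0*u1)+(u1*v2-v1*u2)+(u2*v0-v2*u0))^2 ≤
      (q0*q1/(L0*L1)+q1*q2/(L1*L2)+q2*q0/(L2*L0)) *
      (a*b*(u0*v1-v0*u1)^2+b*c*(u1*v2-v1*u2)^2+c*a*(u2*v0-v2*u0)^2) := by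
    apply cs3
    · positivity
    · positivity
    · positivity
    · positivity
    · positivity
    · positivity
    · rw [ha, hb]; field_simp
    · rw [hb, hc]; field_simp
    · rw [hc, ha]; field_simp
  have hSnn : 0 ≤ p0*L0+p1*L1+p2*L2 := by positivity
  have hfin : (50*((u0*v1-v0*u1)+(u1*v2-v1*u2)+(u2*v0-v2*u0)))^2 ≤ (p0*L0+p1*L1+p2*L2)^2 := by
    have hB0 : 0 ≤ a*b*(u0*v1-v0*u1)^2+b*c*(u1*v2-v1*u2)^2+c*a*(u2*v0-v2*u0)^2 := by positivity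
    have hT0 : 0 ≤ a*(u0^2+v0^2)+b*(u1^2+v1^2)+c*(u2^2+v2^2) := by positivity
    have hT : (a*(u0^2+v0^2)+b*(u1^2+v1^2)+c*(u2^2+v2^2))^2 ≤ (p0*L0+p1*L1+p2*L2)^2 :=
      pow_le_pow_left₀ hT0 hS 2
    have h625 := mul_le_mul_of_nonneg_right hA hB0
    revert hD h625 hL hT
    generalize (u0*v1-v0*u1)+(u1*v2-v1*u2)+(u2*v0-v2*u0) = D
    generalize a*b*(u0*v1-v0*u1)^2+b*c*(u1*v2-v1*u2)^2+c*a*(u2*v0-v2*u0)^2 = B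
    generalize q0*q1/(L0*L1)+q1*q2/(L1*L2)+q2*q0/(L2*L0) = A
    generalize a*(u0^2+v0^2)+b*(u1^2+v1^2)+c*(u2^2+v2^2) = T
    generalize p0*L0+p1*L1+p2*L2 = S
    intro g1 g2 g3 g4
    linarith
  exact (abs_le_of_sq_le_sq' hfin hSnn).2

/-- The main inequality. -/
lemma ineq {p0 p1 p2 q0 q1 q2 u0 u1 u2 v0 v1 v2 : ℝ}
    (hp0 : 0 ≤ p0) (hp1 : 0 ≤ p1) (hp2 : 0 ≤ p2) (hq0 : 0 ≤ q0) (hq1 : 0 ≤ q1) (hq2 : 0 ≤ q2)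
    (h0 : u0^2+v0^2 ≤ p0*q0) (h1 : u1^2+v1^2 ≤ p1*q1) (h2 : u2^2+v2^2 ≤ p2*q2) :
    50*((u0*v1-v0*u1)+(u1*v2-v1*u2)+(u2*v0-v2*u0)) ≤
      p0*(17*q0+2*q1+32*q2) + p1*(32*q0+17*q1+2*q2) + p2*(2*q0+32*q1+17*q2) := by
  by_contra hcon
  push Not at hcon
  obtain ⟨δ, hδ, hδ'⟩ : ∃ δ : ℝ, 0 < δ ∧ 51*(p0+p1+p2)*δ <
      50*((u0*v1-v0*u1)+(u1*v2-v1*u2)+(u2*v0-v2*u0)) -
      (p0*(17*q0+2*q1+32*q2) + p1*(32*q0+17*q1+2*q2) + p2*(2*q0+32*q1+17*q2)) := by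
    set G := 50*((u0*v1-v0*u1)+(u1*v2-v1*u2)+(u2*v0-v2*u0)) -
      (p0*(17*q0+2*q1+32*q2) + p1*(32*q0+17*q1+2*q2) + p2*(2*q0+32*q1+17*q2)) with hG
    have hGp : 0 < G := by rw [hG]; linarith
    have hK : 0 < 51*(p0+p1+p2)+1 := by positivity
    refine ⟨G/(51*(p0+p1+p2)+1), by positivity, ?_⟩
    rw [← mul_div_assoc, div_lt_iff₀ hK]
    nlinarith
  have := ineq_pos hp0 hp1 hp2 (q0 := q0+δ) (q1 := q1+δ) (q2 := q2+δ) (by positivity)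
    (by positivity) (by positivity) (u0 := u0) (u1 := u1) (u2 := u2) (v0 := v0) (v1 := v1)
    (v2 := v2) (by nlinarith [mul_nonneg hp0 hδ.le]) (by nlinarith [mul_nonneg hp1 hδ.le])
    (by nlinarith [mul_nonneg hp2 hδ.le])
  nlinarith

end Pool.Agent.Helper90.Mirror
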