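import Pool.Agent.Helper90.Mirror.Defs
import Pool.Agent.Helper90.Mirror.Ineq

set_option autoImplicit false

/-! # The witnesses and their quadratic forms on product vectors -/

namespace Pool.Agent.Helper90.Mirror

open Matrix Finset
open scoped Kronecker ComplexOrder

/-- The product vector `e ⊗ f`. -/
def tens {d : ℕ} (e f : Fin d → ℂ) : Fin d × Fin d → ℂ := fun x => e x.1 * f x.2

/-- Diagonal coefficients. -/
def aa (i j : Fin 3) : ℝ := if i = j then 17 else if j = i + 1 then 2 else 32

/-- Off-diagonal coefficients. -/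
noncomputable def cc (i j : Fin 3) : ℂ :=
  if i = j then 0 else if j = i + 1 then 25 * Complex.I else -(25 * Complex.I)

/-- The witness attached to a colouring `τ` of the basis by three colours. -/
noncomputable def Wop {d : ℕ} (τ : Fin d → Fin 3) : Op d := fun x y =>
  (if x = y then (aa (τ x.1) (τ x.2) : ℂ) else 0) +
    (if x.1 = x.2 ∧ y.1 = y.2 then cc (τ x.1) (τ y.1) else 0)

/-- Grouping a sum by colours. -/
lemma sum_color {ι R : Type*} [Fintype ι] [CommSemiring R] (τ : ι → Fin 3) (F : Fin 3 → R)
    (h : ι → R) :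
    ∑ k, F (τ k) * h k = ∑ i, F i * ∑ k, (if τ k = i then h k else 0) := by
  simp_rw [Finset.mul_sum]
  rw [Finset.sum_comm]
  apply Finset.sum_congr rfl
  intro k _
  simp [mul_ite, Finset.sum_ite_eq]

variable {d : ℕ}

/-- Weight of a vector in colour `i`. -/
noncomputable def pw (τ : Fin d → Fin 3) (e : Fin d → ℂ) (i : Fin 3) : ℝ :=
  ∑ k, if τ k = i then Complex.normSq (e k) else 0

/-- Overlap in colour `i`. -/
noncomputable def ow (τ : Fin d → Fin 3) (e f : Fin d → ℂ) (i : Fin 3) : ℂ :=
  ∑ k, if τ k = i then e k * f k else 0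

lemma pw_cast (τ : Fin d → Fin 3) (e : Fin d → ℂ) (i : Fin 3) :
    (pw τ e i : ℂ) = ∑ k, if τ k = i then (Complex.normSq (e k) : ℂ) else 0 := by
  simp only [pw]
  rw [Complex.ofReal_sum]
  apply Finset.sum_congr rfl
  intro k _
  split_ifs <;> simp

lemma form_eq (τ : Fin d → Fin 3) (e f : Fin d → ℂ) :
    star (tens e f) ⬝ᵥ (Wop τ *ᵥ tens e f) =
      ((∑ i, ∑ j, aa i j * pw τ e i * pw τ f j : ℝ) : ℂ) +
        ∑ i, ∑ j, cc i j * star (ow τ e f i) * ow τ e f j := by
  have h1 : star (tens e f) ⬝ᵥ (Wop τ *ᵥ tens e f) =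
      (∑ k, ∑ l, (aa (τ k) (τ l) : ℂ) * (Complex.normSq (e k) : ℂ) * (Complex.normSq (f l) : ℂ)) +
      ∑ k, ∑ l, cc (τ k) (τ l) * star (e k * f k) * (e l * f l) := by
    simp only [dotProduct, mulVec, Fintype.sum_prod_type, tens, Wop, Pi.star_apply, add_mul,
      Finset.sum_add_distrib, mul_add]
    congr 1
    · apply Finset.sum_congr rfl
      intro k _
      apply Finset.sum_congr rfl
      intro l _
      rw [Finset.sum_eq_single k]
      · rw [Finset.sum_eq_single l]
        · rw [if_pos rfl]
          rw [Complex.normSq_eq_conj_mul_self, Complex.normSq_eq_conj_mul_self]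
          simp only [star_mul', RCLike.star_def]
          ring
        · intro b _ hb
          rw [if_neg]
          · simp
          · intro h; exact hb (congrArg Prod.snd h).symm
        · simp
      · intro b _ hb
        apply Finset.sum_eq_zero
        intro c _
        rw [if_neg]
        · simp
        · intro h; exact hb (congrArg Prod.fst h).symm
      · simp
    · apply Finset.sum_congr rfl
      intro k _
      rw [Finset.sum_eq_single k]
      · rw [Finset.mul_sum]
        apply Finset.sum_congr rfl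
        intro l _
        rw [Finset.sum_eq_single l]
        · simp only [and_self, if_true]
          ring
        · intro b _ hb
          rw [if_neg]
          · simp
          · intro h; exact hb h.2.symm
        · simp
      · intro b _ hb
        rw [Finset.sum_eq_zero, mul_zero]
        intro c _
        apply Finset.sum_eq_zero
        intro c' _
        rw [if_neg]
        · simp
        · intro h; exact hb h.1.symm
      · simp
  rw [h1]
  congr 1
  · have h2 : ∀ k, ∑ l, (aa (τ k) (τ l) : ℂ) * (Complex.normSq (e k) : ℂ) *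
        (Complex.normSq (f l) : ℂ) =
        (∑ j, (aa (τ k) j : ℂ) * (pw τ f j : ℂ)) * (Complex.normSq (e k) : ℂ) := by
      intro k
      have := sum_color τ (fun j => (aa (τ k) j : ℂ)) (fun l => (Complex.normSq (f l) : ℂ))
      simp only [pw_cast]
      rw [← this, Finset.sum_mul]
      apply Finset.sum_congr rfl
      intro l _
      ring
    simp_rw [h2]
    rw [sum_color τ (fun i => ∑ j, (aa i j : ℂ) * (pw τ f j : ℂ))]
    push_cast
    apply Finset.sum_congr rfl
    intro i _
    rw [Finset.sum_mul]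
    apply Finset.sum_congr rfl
    intro j _
    rw [pw_cast τ e i]
    ring
  · have h2 : ∀ k, ∑ l, cc (τ k) (τ l) * star (e k * f k) * (e l * f l) =
        (∑ j, cc (τ k) j * ow τ e f j) * star (e k * f k) := by
      intro k
      have := sum_color τ (fun j => cc (τ k) j) (fun l => e l * f l)
      simp only [ow]
      rw [← this, Finset.sum_mul]
      apply Finset.sum_congr rfl
      intro l _
      ring
    simp_rw [h2]
    rw [sum_color τ (fun i => ∑ j, cc i j * ow τ e f j)]
    apply Finset.sum_congr rfl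
    intro i _
    rw [Finset.sum_mul]
    apply Finset.sum_congr rfl
    intro j _
    have h3 : (∑ k, if τ k = i then star (e k * f k) else 0) = star (ow τ e f i) := by
      simp only [ow, star_sum]
      apply Finset.sum_congr rfl
      intro k _
      split_ifs <;> simp
    rw [h3]
    ring

/-- Explicit form. -/
lemma form_eq' (τ : Fin d → Fin 3) (e f : Fin d → ℂ) :
    star (tens e f) ⬝ᵥ (Wop τ *ᵥ tens e f) =
      ((pw τ e 0 * (17 * pw τ f 0 + 2 * pw τ f 1 + 32 * pw τ f 2) +
        pw τ e 1 * (32 * pw τ f 0 + 17 * pw τ f 1 + 2 * pw τ f 2) +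
        pw τ e 2 * (2 * pw τ f 0 + 32 * pw τ f 1 + 17 * pw τ f 2) -
        50 * (((ow τ e f 0).re * (ow τ e f 1).im - (ow τ e f 0).im * (ow τ e f 1).re) +
          ((ow τ e f 1).re * (ow τ e f 2).im - (ow τ e f 1).im * (ow τ e f 2).re) +
          ((ow τ e f 2).re * (ow τ e f 0).im - (ow τ e f 2).im * (ow τ e f 0).re)) : ℝ) : ℂ) := by
  rw [form_eq]
  simp only [Fin.sum_univ_three, aa, cc]
  norm_num [Fin.ext_iff]
  apply Complex.ext
  · simp
    ring
  · simp
    ring

lemma pw_nonneg (τ : Fin d → Fin 3) (e : Fin d → ℂ) (i : Fin 3) : 0 ≤ pw τ e i := by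
  apply Finset.sum_nonneg
  intro k _
  split_ifs
  · exact Complex.normSq_nonneg _
  · exact le_rfl

lemma ow_le (τ : Fin d → Fin 3) (e f : Fin d → ℂ) (i : Fin 3) :
    (ow τ e f i).re ^ 2 + (ow τ e f i).im ^ 2 ≤ pw τ e i * pw τ f i := by
  have h1 : (ow τ e f i).re ^ 2 + (ow τ e f i).im ^ 2 = ‖ow τ e f i‖ ^ 2 := by
    rw [← Complex.normSq_eq_norm_sq, Complex.normSq_apply]; ring
  rw [h1]
  have h2 : ‖ow τ e f i‖ ≤ ∑ k, (if τ k = i then ‖e k‖ else 0) * (if τ k = i then ‖f k‖ else 0) := by
    refine (norm_sum_le _ _).trans (Finset.sum_le_sum ?_)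
    intro k _
    split_ifs <;> simp
  have h3 := Finset.sum_mul_sq_le_sq_mul_sq Finset.univ
    (fun k => if τ k = i then ‖e k‖ else 0) (fun k => if τ k = i then ‖f k‖ else 0)
  have h4 : ∀ g : Fin d → ℂ, ∑ k, (if τ k = i then ‖g k‖ else 0) ^ 2 = pw τ g i := by
    intro g
    apply Finset.sum_congr rfl
    intro k _
    split_ifs
    · rw [Complex.normSq_eq_norm_sq]
    · simp
  rw [h4, h4] at h3
  refine le_trans ?_ h3
  exact pow_le_pow_left₀ (norm_nonneg _) h2 2

/-- Block positivity. -/
lemma form_nonneg (τ : Fin d → Fin 3) (e f : Fin d → ℂ) :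
    0 ≤ (star (tens e f) ⬝ᵥ (Wop τ *ᵥ tens e f)).re := by
  rw [form_eq', Complex.ofReal_re]
  have := ineq (pw_nonneg τ e 0) (pw_nonneg τ e 1) (pw_nonneg τ e 2) (pw_nonneg τ f 0)
    (pw_nonneg τ f 1) (pw_nonneg τ f 2) (ow_le τ e f 0) (ow_le τ e f 1) (ow_le τ e f 2)
  linarith

/-- Zero product vectors. -/
lemma form_zero (τ : Fin d → Fin 3) (i : Fin 3) (x y : Fin d → ℂ)
    (hx : ∀ k, τ k ≠ i → x k = 0) (hy : ∀ k, τ k ≠ i + 1 → y k = 0)
    (hxy : ∑ k, Complex.normSq (x k) = ∑ k, Complex.normSq (y k)) :
    star (tens (fun k => 2 * x k + y k) (fun k => star (x k) + 2 * Complex.I * star (y k))) ⬝ᵥ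
      (Wop τ *ᵥ tens (fun k => 2 * x k + y k)
        (fun k => star (x k) + 2 * Complex.I * star (y k))) = 0 := by
  obtain ⟨r, hr⟩ : ∃ r, r = ∑ k, Complex.normSq (x k) := ⟨_, rfl⟩
  have hne : i + 1 ≠ i := by fin_cases i <;> decide
  have hsx : ∀ m, (∑ k, if τ k = m then Complex.normSq (x k) else 0) = if m = i then r else 0 := by
    intro m
    by_cases hm : m = i
    · rw [if_pos hm, hr]
      apply Finset.sum_congr rfl
      intro k _
      by_cases hk : τ k = m
      · rw [if_pos hk]
      · rw [if_neg hk, hx k (by rw [← hm]; exact hk)]; simp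
    · rw [if_neg hm]
      apply Finset.sum_eq_zero
      intro k _
      by_cases hk : τ k = m
      · rw [if_pos hk, hx k (by rw [hk]; exact hm)]; simp
      · rw [if_neg hk]
  have hsy : ∀ m, (∑ k, if τ k = m then Complex.normSq (y k) else 0) =
      if m = i + 1 then r else 0 := by
    intro m
    by_cases hm : m = i + 1
    · rw [if_pos hm, hr, hxy]
      apply Finset.sum_congr rfl
      intro k _
      by_cases hk : τ k = m
      · rw [if_pos hk]
      · rw [if_neg hk, hy k (by rw [← hm]; exact hk)]; simp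
    · rw [if_neg hm]
      apply Finset.sum_eq_zero
      intro k _
      by_cases hk : τ k = m
      · rw [if_pos hk, hy k (by rw [hk]; exact hm)]; simp
      · rw [if_neg hk]
  have hxy0 : ∀ k, x k = 0 ∨ y k = 0 := by
    intro k
    by_cases hk : τ k = i
    · right; exact hy k (by rw [hk]; exact hne.symm)
    · left; exact hx k hk
  have he : ∀ m, pw τ (fun k => 2 * x k + y k) m =
      (if m = i then 4 * r else 0) + (if m = i + 1 then r else 0) := by
    intro m
    have h1 : (if m = i then 4 * r else 0) = 4 * (if m = i then r else 0) := by split_ifs <;> simp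
    rw [h1, ← hsx m, ← hsy m, Finset.mul_sum, ← Finset.sum_add_distrib]
    apply Finset.sum_congr rfl
    intro k _
    rcases hxy0 k with h | h <;> simp only [h] <;> split_ifs <;>
      simp [Complex.normSq_apply] <;> ring
  have hf : ∀ m, pw τ (fun k => star (x k) + 2 * Complex.I * star (y k)) m =
      (if m = i then r else 0) + (if m = i + 1 then 4 * r else 0) := by
    intro m
    have h1 : (if m = i + 1 then 4 * r else 0) = 4 * (if m = i + 1 then r else 0) := by
      split_ifs <;> simp
    rw [h1, ← hsx m, ← hsy m, Finset.mul_sum, ← Finset.sum_add_distrib]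
    apply Finset.sum_congr rfl
    intro k _
    rcases hxy0 k with h | h <;> simp only [h] <;> split_ifs <;>
      simp [Complex.normSq_apply] <;> ring
  have ho : ∀ m, ow τ (fun k => 2 * x k + y k)
      (fun k => star (x k) + 2 * Complex.I * star (y k)) m =
      2 * ((if m = i then r else 0 : ℝ) : ℂ) +
        2 * Complex.I * ((if m = i + 1 then r else 0 : ℝ) : ℂ) := by
    intro m
    rw [← hsx m, ← hsy m]
    push_cast
    rw [Finset.mul_sum, Finset.mul_sum, ← Finset.sum_add_distrib]
    apply Finset.sum_congr rfl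
    intro k _
    have hns : ∀ z : ℂ, z * star z = (Complex.normSq z : ℂ) := fun z => Complex.mul_conj z
    rcases hxy0 k with h | h <;> simp only [h] <;> split_ifs
    · simp only [mul_zero, star_zero, zero_add, map_zero, Complex.ofReal_zero]
      rw [← hns]; ring
    · simp
    · simp only [mul_zero, star_zero, add_zero, map_zero, Complex.ofReal_zero]
      rw [← hns]; ring
    · simp
  rw [form_eq']
  simp only [he, hf, ho]
  have hi : i = 0 ∨ i = 1 ∨ i = 2 := by fin_cases i <;> simp
  have e1 : (0 : Fin 3) + 1 = 1 := rfl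
  have e2 : (1 : Fin 3) + 1 = 2 := rfl
  have e3 : (2 : Fin 3) + 1 = 0 := rfl
  have n1 : ¬ (0 : Fin 3) = 1 := by decide
  have n2 : ¬ (0 : Fin 3) = 2 := by decide
  have n3 : ¬ (1 : Fin 3) = 0 := by decide
  have n4 : ¬ (1 : Fin 3) = 2 := by decide
  have n5 : ¬ (2 : Fin 3) = 0 := by decide
  have n6 : ¬ (2 : Fin 3) = 1 := by decide
  rcases hi with rfl | rfl | rfl <;>
    simp only [e1, e2, e3, n1, n2, n3, n4, n5, n6, if_true, if_false] <;>
    norm_num <;> ring

end Pool.Agent.Helper90.Mirror
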