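import Pool.Agent.Helper90.Mirror.Form

set_option autoImplicit false

/-! # The witnesses are optimal, and come in mirrored pairs -/

namespace Pool.Agent.Helper90.Mirror

open Matrix Finset
open scoped Kronecker ComplexOrder

variable {d : ℕ}

lemma trace_rankOne (W : Op d) (v : Fin d × Fin d → ℂ) :
    (W * vecMulVec v (star v)).trace = star v ⬝ᵥ (W *ᵥ v) := by
  rw [Matrix.mul_vecMulVec, Matrix.trace_vecMulVec, dotProduct_comm]

lemma kron_vecMulVec (e f : Fin d → ℂ) :
    vecMulVec e (star e) ⊗ₖ vecMulVec f (star f) =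
      vecMulVec (tens e f) (star (tens e f)) := by
  ext x y
  simp only [kroneckerMap_apply, vecMulVec_apply, tens, Pi.star_apply, star_mul']
  ring

/-- A positive semidefinite matrix is a sum of rank-one ones. -/
lemma psd_sum {n : Type} [Fintype n] [DecidableEq n] {α : Matrix n n ℂ} (hα : α.PosSemidef) :
    ∃ e : n → n → ℂ, α = ∑ k, vecMulVec (e k) (star (e k)) := by
  obtain ⟨B, hB⟩ : ∃ B : Matrix n n ℂ, α = Bᴴ * B := by
    open scoped MatrixOrder in
    exact CStarAlgebra.nonneg_iff_eq_star_mul_self.mp hα.nonneg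
  refine ⟨fun k i => star (B k i), ?_⟩
  rw [hB]
  ext i j
  simp only [Matrix.mul_apply, conjTranspose_apply, Matrix.sum_apply, vecMulVec_apply,
    Pi.star_apply, star_star]

lemma kron_sum {n m : Type} [Fintype n] [Fintype m] (A : n → Matrix (Fin d) (Fin d) ℂ)
    (B : m → Matrix (Fin d) (Fin d) ℂ) :
    (∑ k, A k) ⊗ₖ (∑ l, B l) = ∑ k, ∑ l, A k ⊗ₖ B l := by
  ext x y
  simp only [kroneckerMap_apply, Matrix.sum_apply]
  rw [Finset.sum_mul_sum]

/-- Nonnegativity on separable operators follows from nonnegativity on product vectors. -/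
lemma sep_nonneg {W : Op d}
    (hW : ∀ e f : Fin d → ℂ, 0 ≤ (star (tens e f) ⬝ᵥ (W *ᵥ tens e f)).re)
    (σ : Op d) (hσ : IsSeparable σ) : 0 ≤ (W * σ).trace.re := by
  have hconv : Convex ℝ {σ : Op d | 0 ≤ (W * σ).trace.re} := by
    intro x hx y hy a b ha hb _
    simp only [Set.mem_ofPred_eq] at hx hy ⊢
    rw [Matrix.mul_add, Matrix.mul_smul, Matrix.mul_smul, Matrix.trace_add, Matrix.trace_smul,
      Matrix.trace_smul, Complex.add_re, Complex.smul_re, Complex.smul_re]
    simp only [smul_eq_mul]
    positivity
  refine convexHull_min ?_ hconv hσ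
  rintro x ⟨α, β, hα, hβ, rfl⟩
  obtain ⟨e, he⟩ := psd_sum hα.1
  obtain ⟨f, hf⟩ := psd_sum hβ.1
  simp only [Set.mem_ofPred_eq]
  rw [he, hf, kron_sum, Finset.mul_sum, Matrix.trace_sum, Complex.re_sum]
  apply Finset.sum_nonneg
  intro k _
  rw [Finset.mul_sum, Matrix.trace_sum, Complex.re_sum]
  apply Finset.sum_nonneg
  intro l _
  rw [kron_vecMulVec, trace_rankOne]
  exact hW _ _

/-- Witnesses are nonnegative on product vectors. -/
lemma IsEW.tens_nonneg {W : Op d} (hW : IsEW W) (e f : Fin d → ℂ) :
    0 ≤ (star (tens e f) ⬝ᵥ (W *ᵥ tens e f)).re := by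
  have key : ∀ e : Fin d → ℂ, e ≠ 0 → ∃ r : ℝ, 0 < r ∧
      IsState ((r : ℂ) • vecMulVec e (star e)) := by
    intro e he
    have h0 : 0 < ∑ k, Complex.normSq (e k) := by
      obtain ⟨k, hk⟩ := Function.ne_iff.mp he
      apply Finset.sum_pos'
      · intro i _; exact Complex.normSq_nonneg _
      · exact ⟨k, Finset.mem_univ _, Complex.normSq_pos.mpr hk⟩
    refine ⟨(∑ k, Complex.normSq (e k))⁻¹, inv_pos.mpr h0, ?_, ?_⟩
    · apply (posSemidef_vecMulVec_self_star e).smul
      exact_mod_cast (inv_pos.mpr h0).le
    · rw [Matrix.trace_smul, Matrix.trace_vecMulVec]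
      have h1 : e ⬝ᵥ star e = ((∑ k, Complex.normSq (e k) : ℝ) : ℂ) := by
        simp only [dotProduct, Pi.star_apply]
        push_cast
        apply Finset.sum_congr rfl
        intro k _
        exact Complex.mul_conj _
      rw [h1, smul_eq_mul, ← Complex.ofReal_mul, inv_mul_cancel₀ h0.ne', Complex.ofReal_one]
  by_cases he : e = 0
  · have : tens e f = 0 := by funext x; simp [tens, he]
    simp [this]
  by_cases hf : f = 0
  · have : tens e f = 0 := by funext x; simp [tens, hf]
    simp [this]
  obtain ⟨r, hr, hα⟩ := key e he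
  obtain ⟨s, hs, hβ⟩ := key f hf
  have h1 := hW.2.1 _ (subset_convexHull ℝ _ ⟨_, _, hα, hβ, rfl⟩)
  rw [smul_kronecker, kronecker_smul, kron_vecMulVec, Matrix.mul_smul, Matrix.mul_smul,
    Matrix.trace_smul, Matrix.trace_smul, trace_rankOne, smul_eq_mul, smul_eq_mul,
    Complex.re_ofReal_mul, Complex.re_ofReal_mul] at h1
  have h2 := (mul_nonneg_iff_of_pos_left hr).mp h1
  exact (mul_nonneg_iff_of_pos_left hs).mp h2

lemma cc_star (i j : Fin 3) : star (cc i j) = cc j i := by
  fin_cases i <;> fin_cases j <;> simp [cc, Fin.ext_iff]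

lemma Wop_hermitian (τ : Fin d → Fin 3) : (Wop τ).IsHermitian := by
  ext x y
  rw [conjTranspose_apply]
  simp only [Wop, star_add]
  congr 1
  · by_cases h : x = y
    · rw [if_pos h, if_pos h.symm, h]; simp
    · rw [if_neg h, if_neg (Ne.symm h)]; simp
  · by_cases h : x.1 = x.2 ∧ y.1 = y.2
    · rw [if_pos h, if_pos h.symm, cc_star]
    · rw [if_neg h, if_neg (fun h' => h h'.symm)]; simp

/-- `Wop τ` is an entanglement witness when the colours `0` and `1` occur. -/
lemma Wop_isEW (τ : Fin d → Fin 3) {k l : Fin d} (hk : τ k = 0) (hl : τ l = 1) :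
    IsEW (Wop τ) := by
  refine ⟨Wop_hermitian τ, sep_nonneg (form_nonneg τ), ?_⟩
  have hkl : k ≠ l := by intro h; rw [h, hl] at hk; exact absurd hk (by decide)
  let ψ : Fin d × Fin d → ℂ := Pi.single (k, k) 1 + Pi.single (l, l) Complex.I
  refine ⟨(((1 / 2 : ℝ)) : ℂ) • vecMulVec ψ (star ψ), ⟨?_, ?_⟩, ?_⟩
  · apply (posSemidef_vecMulVec_self_star ψ).smul
    have h : (0 : ℝ) ≤ 1 / 2 := by norm_num
    exact_mod_cast h
  · rw [Matrix.trace_smul, Matrix.trace_vecMulVec]
    simp only [ψ, star_add, dotProduct_add, add_dotProduct, Pi.star_single, single_dotProduct,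
      Pi.single_apply, Prod.mk.injEq]
    simp [hkl, hkl.symm]
    norm_num
  · rw [Matrix.mul_smul, Matrix.trace_smul, trace_rankOne, smul_eq_mul, Complex.re_ofReal_mul]
    have h1 : star ψ ⬝ᵥ (Wop τ *ᵥ ψ) = -16 := by
      simp only [ψ, star_add, mulVec_add, dotProduct_add, add_dotProduct, Pi.star_single,
        single_dotProduct, mulVec_single, Pi.smul_apply, col_apply]
      simp [Wop, hkl, hkl.symm, hk, hl, aa, cc, Fin.ext_iff]
      ring_nf
      simp
      norm_num
    rw [h1]
    norm_num

lemma swap_surj {τ : Fin d → Fin 3} (hτ : Function.Surjective τ) :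
    Function.Surjective (fun k => Equiv.swap (1 : Fin 3) 2 (τ k)) :=
  (Equiv.swap (1 : Fin 3) 2).surjective.comp hτ

/-- The kernel argument: the zero product vectors of `Wop τ` span. -/
lemma kernel_zero (τ : Fin d → Fin 3) (hτ : Function.Surjective τ) (P : Op d)
    (hZ0 : ∀ e f : Fin d → ℂ, star (tens e f) ⬝ᵥ (Wop τ *ᵥ tens e f) = 0 →
      P *ᵥ tens e f = 0) : P = 0 := by
  -- the kernel of `P`
  let T : (Fin d × Fin d → ℂ) →ₗ[ℂ] (Fin d × Fin d → ℂ) := P.mulVecLin
  have hT : ∀ v, T v = P *ᵥ v := fun v => rfl
  have hZ : ∀ e f : Fin d → ℂ, star (tens e f) ⬝ᵥ (Wop τ *ᵥ tens e f) = 0 →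
      T (tens e f) = 0 := hZ0
  -- basis vectors
  let b : Fin d → Fin d → ℂ := fun k => Pi.single k 1
  have hb : ∀ k m, b k m = if m = k then 1 else 0 := fun k m => by simp [b, Pi.single_apply]
  let t : Fin d → Fin d → (Fin d × Fin d → ℂ) := fun k l => T (tens (b k) (b l))
  -- the general zero vector
  have hZ2 : ∀ (i : Fin 3) (x y : Fin d → ℂ), (∀ k, τ k ≠ i → x k = 0) →
      (∀ k, τ k ≠ i + 1 → y k = 0) →
      (∑ k, Complex.normSq (x k) = ∑ k, Complex.normSq (y k)) →
      (2 : ℂ) • T (tens x (star x)) + (4 * Complex.I) • T (tens x (star y)) +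
        T (tens y (star x)) + (2 * Complex.I) • T (tens y (star y)) = 0 := by
    intro i x y hx hy hxy
    have := hZ _ _ (form_zero τ i x y hx hy hxy)
    rw [← this, ← map_smul, ← map_smul, ← map_smul, ← map_add, ← map_add, ← map_add]
    congr 1
    funext z
    simp only [tens, Pi.add_apply, Pi.smul_apply, smul_eq_mul, Pi.star_apply]
    ring
  -- first family: basis vectors with phases
  have hbase : ∀ (i : Fin 3) (k l : Fin d), τ k = i → τ l = i + 1 →
      t k l = 0 ∧ t l k = 0 ∧ t k k + Complex.I • t l l = 0 := by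
    intro i k l hk hl
    have hph : ∀ η : ℂ, Complex.normSq η = 1 →
        (2 : ℂ) • t k k + (4 * Complex.I * η) • t k l + star η • t l k +
          (2 * Complex.I) • t l l = 0 := by
      intro η hη
      have h1 := hZ2 i (η • b k) (b l) ?_ ?_ ?_
      · have e1 : tens (η • b k) (star (η • b k)) = tens (b k) (b k) := by
          funext z
          have hη' : η * star η = 1 := by
            have := Complex.mul_conj η
            rw [hη] at this
            simpa using this
          simp only [tens, Pi.smul_apply, smul_eq_mul, Pi.star_apply, star_mul', hb]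
          split_ifs <;> simp_all
        have e2 : tens (η • b k) (star (b l)) = η • tens (b k) (b l) := by
          funext z
          simp only [tens, Pi.smul_apply, smul_eq_mul, Pi.star_apply, hb]
          split_ifs <;> simp
        have e3 : tens (b l) (star (η • b k)) = star η • tens (b l) (b k) := by
          funext z
          simp only [tens, Pi.smul_apply, smul_eq_mul, Pi.star_apply, star_mul', hb]
          split_ifs <;> simp
        have e4 : tens (b l) (star (b l)) = tens (b l) (b l) := by
          funext z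
          simp only [tens, Pi.star_apply, hb]
          split_ifs <;> simp
        rw [e1, e2, e3, e4, map_smul, map_smul, smul_smul] at h1
        exact h1
      · intro m hm
        have : m ≠ k := by rintro rfl; exact hm hk
        simp [hb, this]
      · intro m hm
        have : m ≠ l := by rintro rfl; exact hm hl
        simp [hb, this]
      · have e1 : ∀ m, Complex.normSq ((η • b k) m) = if m = k then 1 else 0 := by
          intro m
          simp only [Pi.smul_apply, smul_eq_mul, hb]
          split_ifs <;> simp [hη]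
        have e2 : ∀ m, Complex.normSq (b l m) = if m = l then 1 else 0 := by
          intro m
          rw [hb]
          split_ifs <;> simp
        simp only [e1, e2]
        simp
    have p1 := hph 1 (by simp)
    have p2 := hph (-1) (by simp)
    have p3 := hph Complex.I (by simp)
    have p4 := hph (-Complex.I) (by simp)
    simp only [star_one, star_neg, RCLike.star_def, Complex.conj_I] at p1 p2 p3 p4
    refine ⟨?_, ?_, ?_⟩
    · funext z
      have q1 := congrFun p1 z
      have q2 := congrFun p2 z
      have q3 := congrFun p3 z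
      have q4 := congrFun p4 z
      simp only [Pi.add_apply, Pi.smul_apply, smul_eq_mul, Pi.zero_apply] at q1 q2 q3 q4 ⊢
      have hI : Complex.I * Complex.I = -1 := Complex.I_mul_I
      linear_combination (-Complex.I / 16) * q1 + (Complex.I / 16) * q2 - (1 / 16) * q3 +
        (1 / 16) * q4 + (t k l z) * hI
    · funext z
      have q1 := congrFun p1 z
      have q2 := congrFun p2 z
      have q3 := congrFun p3 z
      have q4 := congrFun p4 z
      simp only [Pi.add_apply, Pi.smul_apply, smul_eq_mul, Pi.zero_apply] at q1 q2 q3 q4 ⊢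
      have hI : Complex.I * Complex.I = -1 := Complex.I_mul_I
      linear_combination (1 / 4) * q1 - (1 / 4) * q2 + (Complex.I / 4) * q3 -
        (Complex.I / 4) * q4 + ((1 / 2) * t l k z - 2 * Complex.I * t k l z) * hI
    · funext z
      have q1 := congrFun p1 z
      have q2 := congrFun p2 z
      simp only [Pi.add_apply, Pi.smul_apply, smul_eq_mul, Pi.zero_apply] at q1 q2 ⊢
      linear_combination (1 / 4) * q1 + (1 / 4) * q2
  -- diagonal vectors
  have hdiag0 : ∀ (i : Fin 3) (k : Fin d), τ k = i → t k k = 0 := by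
    intro i k hk
    obtain ⟨l, hl⟩ := hτ (i + 1)
    obtain ⟨m, hm⟩ := hτ (i + 1 + 1)
    have hi3 : i + 1 + 1 + 1 = i := by fin_cases i <;> rfl
    have h1 := (hbase i k l hk hl).2.2
    have h2 := (hbase (i + 1) l m hl hm).2.2
    have h3 := (hbase (i + 1 + 1) m k hm (by rw [hi3]; exact hk)).2.2
    funext z
    have q1 := congrFun h1 z
    have q2 := congrFun h2 z
    have q3 := congrFun h3 z
    simp only [Pi.add_apply, Pi.smul_apply, smul_eq_mul, Pi.zero_apply] at q1 q2 q3 ⊢
    have hI : Complex.I * Complex.I = -1 := Complex.I_mul_I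
    have h4 : (1 - Complex.I) * t k k z = 0 := by
      linear_combination q1 - Complex.I * q2 - q3 + (t m m z) * hI
    have h5 : (1 : ℂ) - Complex.I ≠ 0 := by
      intro h
      have := congrArg Complex.re h
      simp at this
    exact (mul_eq_zero.mp h4).resolve_left h5
  have hdiag : ∀ k, t k k = 0 := fun k => hdiag0 (τ k) k rfl
  -- different colours
  have hoff : ∀ k l, τ k ≠ τ l → t k l = 0 := by
    intro k l hkl
    have h : τ l = τ k + 1 ∨ τ k = τ l + 1 := by
      generalize τ k = i at hkl
      generalize τ l = j at hkl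
      revert i j
      decide
    rcases h with h | h
    · exact (hbase (τ k) k l rfl h).1
    · exact (hbase (τ l) l k rfl h).2.1
  -- same colour
  have hsame : ∀ k l, k ≠ l → τ k = τ l → t k l = 0 := by
    intro k l hne hkl
    obtain ⟨m, hm⟩ := hτ (τ k + 1)
    have hkm : τ k ≠ τ m := by
      rw [hm]
      generalize τ k = i
      revert i
      decide
    have hph : ∀ η : ℂ, Complex.normSq η = 1 → star η • t k l + η • t l k = 0 := by
      intro η hη
      have hη' : η * star η = 1 := by
        have := Complex.mul_conj η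
        rw [hη] at this
        simpa using this
      have h1 := hZ2 (τ k) ((3 : ℂ) • b k + (4 * η) • b l) ((5 : ℂ) • b m) ?_ ?_ ?_
      · have e1 : tens ((3 : ℂ) • b k + (4 * η) • b l) (star ((3 : ℂ) • b k + (4 * η) • b l)) =
            (9 : ℂ) • tens (b k) (b k) + (12 * star η) • tens (b k) (b l) +
              (12 * η) • tens (b l) (b k) + (16 : ℂ) • tens (b l) (b l) := by
          funext z
          simp only [tens, Pi.smul_apply, Pi.add_apply, smul_eq_mul, Pi.star_apply, star_add,
            star_mul', hb]
          have s3 : star (3 : ℂ) = 3 := by simp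
          have s4 : star (4 : ℂ) = 4 := by simp
          have sb : ∀ c : Prop, ∀ _ : Decidable c, star (if c then (1 : ℂ) else 0) =
              if c then 1 else 0 := by
            intro c _; split_ifs <;> simp
          rw [s3, s4, sb, sb]
          linear_combination (16 * (if z.1 = l then (1 : ℂ) else 0) *
            (if z.2 = l then (1 : ℂ) else 0)) * hη'
        have e2 : tens ((3 : ℂ) • b k + (4 * η) • b l) (star ((5 : ℂ) • b m)) =
            (15 : ℂ) • tens (b k) (b m) + (20 * η) • tens (b l) (b m) := by
          funext z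
          simp only [tens, Pi.smul_apply, Pi.add_apply, smul_eq_mul, Pi.star_apply,
            star_mul', hb]
          have s5 : star (5 : ℂ) = 5 := by simp
          have sb : ∀ c : Prop, ∀ _ : Decidable c, star (if c then (1 : ℂ) else 0) =
              if c then 1 else 0 := by
            intro c _; split_ifs <;> simp
          rw [s5, sb]
          ring
        have e3 : tens ((5 : ℂ) • b m) (star ((3 : ℂ) • b k + (4 * η) • b l)) =
            (15 : ℂ) • tens (b m) (b k) + (20 * star η) • tens (b m) (b l) := by
          funext z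
          simp only [tens, Pi.smul_apply, Pi.add_apply, smul_eq_mul, Pi.star_apply, star_add,
            star_mul', hb]
          have s3 : star (3 : ℂ) = 3 := by simp
          have s4 : star (4 : ℂ) = 4 := by simp
          have sb : ∀ c : Prop, ∀ _ : Decidable c, star (if c then (1 : ℂ) else 0) =
              if c then 1 else 0 := by
            intro c _; split_ifs <;> simp
          rw [s3, s4, sb, sb]
          ring
        have e4 : tens ((5 : ℂ) • b m) (star ((5 : ℂ) • b m)) = (25 : ℂ) • tens (b m) (b m) := by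
          funext z
          simp only [tens, Pi.smul_apply, smul_eq_mul, Pi.star_apply, star_mul', hb]
          have s5 : star (5 : ℂ) = 5 := by simp
          have sb : ∀ c : Prop, ∀ _ : Decidable c, star (if c then (1 : ℂ) else 0) =
              if c then 1 else 0 := by
            intro c _; split_ifs <;> simp
          rw [s5, sb]
          ring
        have hlm : τ l ≠ τ m := by rw [← hkl]; exact hkm
        have z1 : T (tens (b k) (b m)) = 0 := hoff k m hkm
        have z2 : T (tens (b l) (b m)) = 0 := hoff l m hlm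
        have z3 : T (tens (b m) (b k)) = 0 := hoff m k hkm.symm
        have z4 : T (tens (b m) (b l)) = 0 := hoff m l hlm.symm
        have z5 : T (tens (b k) (b k)) = 0 := hdiag k
        have z6 : T (tens (b l) (b l)) = 0 := hdiag l
        have z7 : T (tens (b m) (b m)) = 0 := hdiag m
        rw [e1, e2, e3, e4] at h1
        simp only [map_add, map_smul, z1, z2, z3, z4, z5, z6, z7, smul_zero, add_zero,
          zero_add] at h1
        funext z
        have q := congrFun h1 z
        simp only [Pi.add_apply, Pi.smul_apply, smul_eq_mul, Pi.zero_apply] at q ⊢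
        have : t k l z = T (tens (b k) (b l)) z := rfl
        have : t l k z = T (tens (b l) (b k)) z := rfl
        simp only [t]
        linear_combination (1 / 24) * q
      · intro n hn
        have h1 : n ≠ k := by rintro rfl; exact hn rfl
        have h2 : n ≠ l := by rintro rfl; exact hn hkl.symm
        simp [hb, h1, h2]
      · intro n hn
        have h1 : n ≠ m := by rintro rfl; exact hn hm
        simp [hb, h1]
      · have e1 : ∀ n, Complex.normSq (((3 : ℂ) • b k + (4 * η) • b l) n) =
            (if n = k then 9 else 0) + (if n = l then 16 else 0) := by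
          intro n
          simp only [Pi.smul_apply, Pi.add_apply, smul_eq_mul, hb]
          by_cases h1 : n = k
          · have h2 : n ≠ l := by rw [h1]; exact hne
            simp only [h1, hne, if_true, if_false]
            simp [Complex.normSq_apply]
            norm_num
          · by_cases h2 : n = l
            · simp only [h2, hne.symm, if_true, if_false]
              simp [hη, Complex.normSq_mul]
              norm_num [Complex.normSq_apply]
            · simp [h1, h2]
        have e2 : ∀ n, Complex.normSq (((5 : ℂ) • b m) n) = if n = m then 25 else 0 := by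
          intro n
          simp only [Pi.smul_apply, smul_eq_mul, hb]
          split_ifs
          · simp [Complex.normSq_apply]; norm_num
          · simp
        simp only [e1, e2, Finset.sum_add_distrib]
        simp
        norm_num
    have p1 := hph 1 (by simp)
    have p2 := hph Complex.I (by simp)
    simp only [star_one, RCLike.star_def, Complex.conj_I] at p1 p2
    funext z
    have q1 := congrFun p1 z
    have q2 := congrFun p2 z
    simp only [Pi.add_apply, Pi.smul_apply, smul_eq_mul, Pi.zero_apply] at q1 q2 ⊢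
    have hI : Complex.I * Complex.I = -1 := Complex.I_mul_I
    linear_combination (1 / 2) * q1 + (Complex.I / 2) * q2 +
      ((1 / 2) * t k l z - (1 / 2) * t l k z) * hI
  have hall : ∀ k l, t k l = 0 := by
    intro k l
    by_cases h1 : τ k = τ l
    · by_cases h2 : k = l
      · rw [h2]; exact hdiag l
      · exact hsame k l h2 h1
    · exact hoff k l h1
  ext x y
  have h1 := congrFun (hall y.1 y.2) x
  have h2 : tens (b y.1) (b y.2) = Pi.single y 1 := by
    funext z
    simp only [tens, hb, Pi.single_apply]
    by_cases hz : z = y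
    · simp [hz]
    · rw [if_neg hz]
      by_cases hz1 : z.1 = y.1
      · have hz2 : z.2 ≠ y.2 := fun h => hz (Prod.ext hz1 h)
        simp [hz2]
      · simp [hz1]
  simp only [t, h2, hT, mulVec_single_one, col_apply, Pi.zero_apply] at h1
  simpa using h1

/-- `Wop τ` is optimal. -/
lemma Wop_optimal (τ : Fin d → Fin 3) (hτ : Function.Surjective τ) : IsOptimalEW (Wop τ) := by
  obtain ⟨k0, hk0⟩ := hτ 0
  obtain ⟨k1, hk1⟩ := hτ 1
  refine ⟨Wop_isEW τ hk0 hk1, ?_⟩
  rintro ⟨ε, P, hε, hP, hP0, hEW⟩
  apply hP0
  apply kernel_zero τ hτ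
  intro e f h
  rw [← hP.dotProduct_mulVec_zero_iff]
  have h1 := hEW.tens_nonneg e f
  rw [sub_mulVec, dotProduct_sub, h, smul_mulVec, dotProduct_smul, zero_sub, smul_eq_mul,
    Complex.neg_re, Complex.re_ofReal_mul] at h1
  have h2 := hP.dotProduct_mulVec_nonneg (tens e f)
  rw [Complex.nonneg_iff] at h2
  apply Complex.ext
  · have h3 : (star (tens e f) ⬝ᵥ (P *ᵥ tens e f)).re ≤ 0 := by
      by_contra hc
      push Not at hc
      have := mul_pos hε hc
      linarith
    simpa using le_antisymm h3 h2.1
  · simpa using h2.2.symm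

/-- The partial transpose on product vectors. -/
lemma form_partialTranspose (Q : Op d) (e f : Fin d → ℂ) :
    star (tens e f) ⬝ᵥ (partialTranspose Q *ᵥ tens e f) =
      star (tens e (star f)) ⬝ᵥ (Q *ᵥ tens e (star f)) := by
  simp only [dotProduct, mulVec, Fintype.sum_prod_type, tens, Pi.star_apply, partialTranspose,
    star_mul', star_star, Finset.mul_sum]
  apply Finset.sum_congr rfl
  intro i _
  rw [Finset.sum_comm]
  rw [Finset.sum_congr rfl (fun k _ => Finset.sum_comm)]
  rw [Finset.sum_comm]
  apply Finset.sum_congr rfl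
  intro l _
  apply Finset.sum_congr rfl
  intro k _
  apply Finset.sum_congr rfl
  intro j _
  ring

/-- `Wop τ` is not decomposable. -/
lemma Wop_not_decomposable (τ : Fin d → Fin 3) (hτ : Function.Surjective τ) :
    ¬ IsDecomposable (Wop τ) := by
  rintro ⟨P, Q, hP, hQ, hW⟩
  obtain ⟨k, hk⟩ := hτ 0
  obtain ⟨l, hl⟩ := hτ 1
  have hkl : k ≠ l := by intro h; rw [h, hl] at hk; exact absurd hk (by decide)
  have hP0 : P = 0 := by
    apply kernel_zero τ hτ
    intro e f h
    rw [← hP.dotProduct_mulVec_zero_iff]
    rw [hW, add_mulVec, dotProduct_add, form_partialTranspose] at h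
    have h1 := hP.dotProduct_mulVec_nonneg (tens e f)
    have h2 := hQ.dotProduct_mulVec_nonneg (tens e (star f))
    have h3 := (add_eq_zero_iff_of_nonneg h1 h2).mp h
    exact h3.1
  rw [hP0, zero_add] at hW
  let ψ : Fin d × Fin d → ℂ := Pi.single (k, l) 4 + Pi.single (l, k) Complex.I
  have h1 := hQ.dotProduct_mulVec_nonneg ψ
  have q1 : Q (k, l) (k, l) = 2 := by
    have := congrFun (congrFun hW (k, l)) (k, l)
    simp only [partialTranspose] at this
    rw [← this]
    simp [Wop, hkl, hk, hl, aa]
  have q2 : Q (l, k) (l, k) = 32 := by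
    have := congrFun (congrFun hW (l, k)) (l, k)
    simp only [partialTranspose] at this
    rw [← this]
    simp [Wop, hkl.symm, hk, hl, aa]
  have q3 : Q (k, l) (l, k) = 25 * Complex.I := by
    have := congrFun (congrFun hW (k, k)) (l, l)
    simp only [partialTranspose] at this
    rw [← this]
    simp [Wop, hkl, hk, hl, cc]
  have q4 : Q (l, k) (k, l) = -(25 * Complex.I) := by
    have := congrFun (congrFun hW (l, l)) (k, k)
    simp only [partialTranspose] at this
    rw [← this]
    simp [Wop, hkl.symm, hk, hl, cc]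
  have h2 : star ψ ⬝ᵥ (Q *ᵥ ψ) = -136 := by
    simp only [ψ, star_add, mulVec_add, dotProduct_add, add_dotProduct, Pi.star_single,
      single_dotProduct, mulVec_single, Pi.smul_apply, col_apply, q1, q2, q3, q4]
    simp
    ring_nf
    simp
    norm_num
  rw [h2, Complex.nonneg_iff] at h1
  norm_num at h1

/-- The two members of the pair add up to `34`. -/
lemma Wop_add (τ : Fin d → Fin 3) :
    Wop τ + Wop (fun k => Equiv.swap (1 : Fin 3) 2 (τ k)) = ((34 : ℝ) : ℂ) • (1 : Op d) := by
  have ha : ∀ i j : Fin 3, aa i j + aa (Equiv.swap (1 : Fin 3) 2 i) (Equiv.swap (1 : Fin 3) 2 j)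
      = 34 := by
    intro i j
    fin_cases i <;> fin_cases j <;> simp [aa, Equiv.swap_apply_def, Fin.ext_iff] <;> norm_num
  have hc : ∀ i j : Fin 3, cc i j + cc (Equiv.swap (1 : Fin 3) 2 i) (Equiv.swap (1 : Fin 3) 2 j)
      = 0 := by
    intro i j
    fin_cases i <;> fin_cases j <;> simp [cc, Equiv.swap_apply_def, Fin.ext_iff]
  ext x y
  simp only [Wop, Matrix.add_apply, Matrix.smul_apply, Matrix.one_apply, smul_eq_mul]
  have h1 := ha (τ x.1) (τ x.2)
  have h2 := hc (τ x.1) (τ y.1)
  split_ifs
  · have h1' : ((aa (τ x.1) (τ x.2) : ℝ) : ℂ) + ((aa (Equiv.swap (1 : Fin 3) 2 (τ x.1))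
      (Equiv.swap (1 : Fin 3) 2 (τ x.2)) : ℝ) : ℂ) = ((34 : ℝ) : ℂ) := by
      rw [← Complex.ofReal_add, h1]
    linear_combination h1' + h2
  · have h1' : ((aa (τ x.1) (τ x.2) : ℝ) : ℂ) + ((aa (Equiv.swap (1 : Fin 3) 2 (τ x.1))
      (Equiv.swap (1 : Fin 3) 2 (τ x.2)) : ℝ) : ℂ) = ((34 : ℝ) : ℂ) := by
      rw [← Complex.ofReal_add, h1]
    linear_combination h1'
  · linear_combination h2
  · simp

/-- For every `d ≥ 3` there is a mirrored pair of optimal entanglement witnesses, both
non-decomposable. -/
theorem exists_mirrored (d : ℕ) (hd : 3 ≤ d) :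
    ∃ W M : Op d, IsMirroredOptimalPair W M ∧ ¬ IsDecomposable W ∧ ¬ IsDecomposable M := by
  obtain ⟨τ, hτ⟩ : ∃ τ : Fin d → Fin 3, Function.Surjective τ := by
    refine ⟨fun k => if h : k.1 < 3 then ⟨k.1, h⟩ else 0, fun i => ?_⟩
    refine ⟨⟨i.1, by have := i.2; omega⟩, ?_⟩
    simp
  exact ⟨Wop τ, Wop (fun k => Equiv.swap (1 : Fin 3) 2 (τ k)), ⟨Wop_optimal τ hτ,
    Wop_optimal _ (swap_surj hτ), 34, Wop_add τ⟩, Wop_not_decomposable τ hτ,
    Wop_not_decomposable _ (swap_surj hτ)⟩

end Pool.Agent.Helper90.Mirror
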